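import Pool.Agent.helper79.WB.SpecII

/-!
# Row wb:II.DY: dyadic pigeonhole
-/

set_option autoImplicit false

namespace Pool.Agent.WB

theorem DY : DY_stmt := by
  intro A B F hF hFAB
  have hdegA : ∀ η : V3, (F.filter fun e => e.2 = η).card ≤ A.card := by
    intro η
    refine Finset.card_le_card_of_injOn (fun e => e.1) ?_ ?_
    · intro e he
      have he' := Finset.mem_filter.mp (Finset.mem_coe.mp he)
      exact Finset.mem_coe.mpr (hFAB e he'.1).1
    · intro e he e' he' h
      have h1 := (Finset.mem_filter.mp (Finset.mem_coe.mp he)).2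
      have h2 := (Finset.mem_filter.mp (Finset.mem_coe.mp he')).2
      exact Prod.ext h (h1.trans h2.symm)
  have hdeg1 : ∀ e ∈ F, 1 ≤ (F.filter fun e' => e'.2 = e.2).card := by
    intro e he
    exact Finset.card_pos.mpr ⟨e, Finset.mem_filter.mpr ⟨he, rfl⟩⟩
  obtain ⟨Bk, hBk⟩ : ∃ Bk : ℕ → Finset V3, ∀ k η, η ∈ Bk k ↔ η ∈ B ∧
      2 ^ k ≤ (F.filter fun e => e.2 = η).card ∧ (F.filter fun e => e.2 = η).card < 2 ^ (k + 1) :=
    ⟨fun k => B.filter fun η => 2 ^ k ≤ (F.filter fun e => e.2 = η).card ∧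
      (F.filter fun e => e.2 = η).card < 2 ^ (k + 1), fun k η => Finset.mem_filter⟩
  have hsub : F ⊆ (Finset.range (Nat.log 2 A.card + 1)).biUnion
      (fun k => F.filter fun e => e.2 ∈ Bk k) := by
    intro e he
    refine Finset.mem_biUnion.mpr ⟨Nat.log 2 (F.filter fun e' => e'.2 = e.2).card, ?_, ?_⟩
    · exact Finset.mem_range.mpr (Nat.lt_succ_of_le (Nat.log_mono_right (hdegA e.2)))
    · refine Finset.mem_filter.mpr ⟨he, (hBk _ _).mpr ⟨(hFAB e he).2, ?_, ?_⟩⟩
      · exact Nat.pow_log_le_self 2 (by have := hdeg1 e he; omega)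
      · exact Nat.lt_pow_succ_log_self (by norm_num) _
  obtain ⟨k, hk, hmax⟩ := Finset.exists_max_image (Finset.range (Nat.log 2 A.card + 1))
    (fun k => (F.filter fun e => e.2 ∈ Bk k).card) ⟨0, Finset.mem_range.mpr (Nat.succ_pos _)⟩
  have hFle : F.card ≤ (Nat.log 2 A.card + 1) * (F.filter fun e => e.2 ∈ Bk k).card := by
    calc F.card ≤ _ := Finset.card_le_card hsub
      _ ≤ ∑ j ∈ Finset.range (Nat.log 2 A.card + 1), (F.filter fun e => e.2 ∈ Bk j).card :=
        Finset.card_biUnion_le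
      _ ≤ ∑ _j ∈ Finset.range (Nat.log 2 A.card + 1), (F.filter fun e => e.2 ∈ Bk k).card :=
        Finset.sum_le_sum hmax
      _ = _ := by rw [Finset.sum_const, Finset.card_range, smul_eq_mul]
  have hFpos : 0 < F.card := Finset.card_pos.mpr hF
  have hekpos : 0 < (F.filter fun e => e.2 ∈ Bk k).card := by
    rcases Nat.eq_zero_or_pos (F.filter fun e => e.2 ∈ Bk k).card with h | h
    · rw [h, mul_zero] at hFle
      omega
    · exact h
  have hdeg : ∀ η ∈ Bk k, 2 ^ k ≤ (F.filter fun e => e.2 = η).card ∧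
      (F.filter fun e => e.2 = η).card < 2 * 2 ^ k := by
    intro η hη
    have h := ((hBk k η).mp hη).2
    rw [pow_succ] at h
    omega
  refine ⟨2 ^ k, Bk k, Nat.one_le_two_pow, ?_, ?_, hdeg, ?_, hFle⟩
  · obtain ⟨e, he⟩ := Finset.card_pos.mp hekpos
    exact (hdeg e.2 (Finset.mem_filter.mp he).2).1.trans (hdegA e.2)
  · intro η hη
    exact ((hBk k η).mp hη).1
  · have h1 : (F.filter fun e => e.2 ∈ Bk k).card =
        ∑ η ∈ Bk k, ((F.filter fun e => e.2 ∈ Bk k).filter fun e => e.2 = η).card := by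
      refine Finset.card_eq_sum_card_fiberwise ?_
      intro e he
      exact Finset.mem_coe.mpr (Finset.mem_filter.mp (Finset.mem_coe.mp he)).2
    rw [h1]
    calc ∑ η ∈ Bk k, ((F.filter fun e => e.2 ∈ Bk k).filter fun e => e.2 = η).card
        ≤ ∑ _η ∈ Bk k, 2 * 2 ^ k := by
          refine Finset.sum_le_sum ?_
          intro η hη
          refine le_trans (Finset.card_le_card ?_) (hdeg η hη).2.le
          intro e he
          have h2 := Finset.mem_filter.mp he
          exact Finset.mem_filter.mpr ⟨(Finset.mem_filter.mp h2.1).1, h2.2⟩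
      _ = 2 * 2 ^ k * (Bk k).card := by
          rw [Finset.sum_const, smul_eq_mul, mul_comm]

end Pool.Agent.WB
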